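import Pool.Agent.X55.FD.Main

/-! MP_0d5181_co: the normalised logarithmic sizes of the dilate sums of a fractional set are
approximated, simultaneously for all `1 ≤ |k| ≤ N`, by those of a finite set of integers. -/

set_option autoImplicit false

namespace Pool.Agent.Results.MP_0d5181_co.FiniteSetsApproximate

/-- the size `inf_{0 < p < 1} ∑_n γ(n)^p` of a fractional dilate (with `0^p = 0`) -/
noncomputable def size (γ : ℤ → ℝ) : ℝ := ⨅ p : Set.Ioo (0 : ℝ) 1, ∑' n : ℤ, γ n ^ (p : ℝ)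

/-- the fractional dilate `(α + k·α)(n) = ∑_{i + k j = n} α(i) α(j)` -/
noncomputable def dilateSum (α : ℤ → ℝ) (k n : ℤ) : ℝ :=
  ∑' q : ℤ × ℤ, if q.1 + k * q.2 = n then α q.1 * α q.2 else 0

/-- the set `S + k·S = {a + k b : a, b ∈ S}` -/
def setDilateSum (S : Finset ℤ) (k : ℤ) : Finset ℤ := Finset.image₂ (fun a b => a + k * b) S S

theorem result (α : ℤ → ℝ) (hfin : (Function.support α).Finite) (h0 : ∀ n, 0 ≤ α n)
    (h1 : ∀ n, α n ≤ 1) (hs : 1 < size α) (N : ℕ) (ε : ℝ) (hε : 0 < ε) :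
    ∃ S : Finset ℤ, 2 ≤ S.card ∧ ∀ k : ℤ, 1 ≤ |k| → |k| ≤ N →
      |Real.log (size (dilateSum α k)) / Real.log (size α) -
        Real.log (setDilateSum S k).card / Real.log S.card| < ε := by
  classical
  set F : Finset ℤ := hfin.toFinset with hF
  have hFm : ∀ n, n ∈ F ↔ α n ≠ 0 := fun n => by rw [hF, Set.Finite.mem_toFinset]; rfl
  have hpos : ∀ n ∈ F, 0 < α n := fun n hn => lt_of_le_of_ne (h0 n) (Ne.symm ((hFm n).mp hn))
  -- the size of a function supported in a finite set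
  have hsize : ∀ (G : Finset ℤ) (g : ℤ → ℝ), (∀ n, n ∉ G → g n = 0) →
      size g = Pool.Agent.X55.FD.sz G g := by
    intro G g hg
    unfold size Pool.Agent.X55.FD.sz
    congr 1
    funext p
    apply tsum_eq_sum
    intro n hn
    rw [hg n hn, Real.zero_rpow p.2.1.ne']
  have hs1 : size α = ∑ m ∈ F, α m := by
    rw [hsize F α (fun n hn => by by_contra h; exact hn ((hFm n).mpr h))]
    exact Pool.Agent.X55.FD.sz_alpha h0 h1 hpos
  have hs2 : ∀ k n, dilateSum α k n = Pool.Agent.X55.FD.Ga α (Pool.Agent.X55.FD.sk k) F n := by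
    intro k n
    unfold dilateSum Pool.Agent.X55.FD.Ga Pool.Agent.X55.FD.Q
    rw [Finset.sum_filter]
    rw [tsum_eq_sum (s := F ×ˢ F)]
    · rfl
    · intro q hq
      rw [Finset.mem_product, not_and_or] at hq
      have : α q.1 * α q.2 = 0 := by
        rcases hq with h | h
        · rw [not_not.mp (mt (hFm q.1).mpr h), zero_mul]
        · rw [not_not.mp (mt (hFm q.2).mpr h), mul_zero]
      rw [this]
      simp
  have hs3 : ∀ k, size (dilateSum α k) = Pool.Agent.X55.FD.sz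
      (Finset.image₂ (Pool.Agent.X55.FD.sk k) F F)
      (Pool.Agent.X55.FD.Ga α (Pool.Agent.X55.FD.sk k) F) := by
    intro k
    have e : dilateSum α k = Pool.Agent.X55.FD.Ga α (Pool.Agent.X55.FD.sk k) F := by
      funext n
      exact hs2 k n
    rw [e]
    apply hsize
    intro n hn
    unfold Pool.Agent.X55.FD.Ga
    apply Finset.sum_eq_zero
    intro q hq
    exfalso
    obtain ⟨⟨c1, c2⟩, c3⟩ := Pool.Agent.X55.FD.mem_Q.mp hq
    exact hn (Finset.mem_image₂.mpr ⟨q.1, c1, q.2, c2, c3⟩)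
  obtain ⟨S, hS1, hS2⟩ := Pool.Agent.X55.FD.main h0 h1 hpos (by rw [← hs1]; exact hs) N hε
  refine ⟨S, hS1, fun k hk1 hk2 => ?_⟩
  rw [hs3 k, hs1]
  exact hS2 k hk1 hk2

end Pool.Agent.Results.MP_0d5181_co.FiniteSetsApproximate
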